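import Pool.Agent.helper71.CL.Spec
import Pool.Agent.helper96.PL2

/-! # cl:LGC: log-concavity from the Prekopa-Leindler inequality -/

set_option autoImplicit false

open MeasureTheory Set Filter Topology
open scoped ENNReal
open Pool.Agent.helper81.CW

namespace Pool.Agent.CL

theorem LGC_cont (hFAR : FAR_stmt) {n : ℕ} {C : Set (E n)} (hC : IsCompact C) (hne : C.Nonempty) :
    Continuous (far C) := by
  apply LipschitzWith.continuous (K := 1)
  apply LipschitzWith.of_dist_le_mul
  intro x y
  rw [Real.dist_eq, dist_eq_norm, NNReal.coe_one, one_mul]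
  exact (hFAR n C hC hne x y).2.2.1

theorem LGC (hFAR : FAR_stmt) : LGC_stmt := by
  intro n C ρ σ l hC hne hl0 hl1
  have hcont := LGC_cont hFAR hC hne
  have hφ : MeasurePreserving (WithLp.toLp 2 : (Fin n → ℝ) → E n) volume volume :=
    PiLp.volume_preserving_toLp (Fin n)
  have hm : ∀ r : ℝ, MeasurableSet {x : E n | far C x ≤ r} := fun r =>
    (isClosed_le hcont continuous_const).measurableSet
  set S : ℝ → Set (Fin n → ℝ) := fun r =>
    (WithLp.toLp 2 : (Fin n → ℝ) → E n) ⁻¹' {x : E n | far C x ≤ r} with hS
  have mS : ∀ r, MeasurableSet (S r) := fun r => hφ.measurable (hm r)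
  have vS : ∀ r, volume (S r) = VV C r := fun r =>
    hφ.measure_preimage (hm r).nullMeasurableSet
  have hl1' : 0 < 1 - l := by linarith
  have key := Pool.Agent.helper96.prekopa_leindler (t := l) hl0 hl1 n
    (f := (S ρ).indicator fun _ => 1) (g := (S σ).indicator fun _ => 1)
    (h := (S (l * ρ + (1 - l) * σ)).indicator fun _ => 1)
    (measurable_const.indicator (mS _)) (measurable_const.indicator (mS _))
    (measurable_const.indicator (mS _)) (by
      intro x y
      by_cases hx : x ∈ S ρ
      · by_cases hy : y ∈ S σ
        · have hxy : l • x + (1 - l) • y ∈ S (l * ρ + (1 - l) * σ) := by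
            have h1 := (hFAR n C hC hne (WithLp.toLp 2 x) (WithLp.toLp 2 y)).2.2.2 l (1 - l)
              hl0.le hl1'.le (by ring)
            have hx' : far C (WithLp.toLp 2 x) ≤ ρ := hx
            have hy' : far C (WithLp.toLp 2 y) ≤ σ := hy
            have e : (WithLp.toLp 2 (l • x + (1 - l) • y) : E n) =
                l • (WithLp.toLp 2 x : E n) + (1 - l) • (WithLp.toLp 2 y : E n) := by
              rw [WithLp.toLp_add, WithLp.toLp_smul, WithLp.toLp_smul]
            change far C (WithLp.toLp 2 (l • x + (1 - l) • y)) ≤ l * ρ + (1 - l) * σ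
            rw [e]
            calc _ ≤ _ := h1
              _ ≤ l * ρ + (1 - l) * σ := add_le_add (mul_le_mul_of_nonneg_left hx' hl0.le)
                (mul_le_mul_of_nonneg_left hy' hl1'.le)
          rw [Set.indicator_of_mem hx, Set.indicator_of_mem hy, Set.indicator_of_mem hxy]
          simp
        · rw [Set.indicator_of_notMem hy, ENNReal.zero_rpow_of_pos hl1', mul_zero]
          exact zero_le
      · rw [Set.indicator_of_notMem hx, ENNReal.zero_rpow_of_pos hl0, zero_mul]
        exact zero_le)
  rw [lintegral_indicator_const (mS _), lintegral_indicator_const (mS _),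
    lintegral_indicator_const (mS _), one_mul, one_mul, one_mul, vS, vS, vS] at key
  exact key

end Pool.Agent.CL
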